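import Pool.Agent.Helper23.WC.Spec
import Pool.Agent.Helper15.CC.DUAL

/-!
The first-order terms of the coefficients of the universal equations at the binary monomials.
-/

set_option autoImplicit false

namespace Pool.Agent.Helper16.WL.D1

open MvPolynomial Pool.Agent.Helper23.CC Pool.Agent.Helper23.WC Pool.Agent.Helper15.CC

/-- the variables -/
abbrev Vr (N r : ℕ) : Type := Fin (N + 1 + 1) ⊕ Fin r

theorem vcases {N r : ℕ} (w : Vr N r) : w = .inl 0 ∨ w = .inl 1 ∨ ∃ c : Cv N r, w = iv c := by
  rcases w with w | i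
  · refine Fin.cases ?_ (fun w => ?_) w
    · left; rfl
    · refine Fin.cases ?_ (fun w => ?_) w
      · right; left; rfl
      · right; right; exact ⟨.inl w, rfl⟩
  · right; right; exact ⟨.inr i, rfl⟩

theorem iv_ne0 {N r : ℕ} (c : Cv N r) : iv c ≠ (.inl 0 : Vr N r) := by
  rcases c with j | i
  · intro h
    have h2 : (j.succ.succ : Fin (N + 1 + 1)) = 0 := Sum.inl_injective h
    exact Fin.succ_ne_zero _ h2
  · intro h
    cases h

theorem iv_ne1 {N r : ℕ} (c : Cv N r) : iv c ≠ (.inl 1 : Vr N r) := by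
  rcases c with j | i
  · intro h
    have h2 : (j.succ.succ : Fin (N + 1 + 1)) = 1 := Sum.inl_injective h
    have h3 := congrArg Fin.val h2
    simp at h3
  · intro h
    cases h

theorem iv_inj {N r : ℕ} {c c' : Cv N r} (h : iv c = iv c') : c = c' := by
  rcases c with j | i <;> rcases c' with j' | i'
  · have h2 : (j.succ.succ : Fin (N + 1 + 1)) = j'.succ.succ := Sum.inl_injective h
    rw [Fin.succ_inj, Fin.succ_inj] at h2
    rw [h2]
  · cases h
  · cases h
  · have h2 : i = i' := Sum.inr_injective h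
    rw [h2]

/-- the curve at order 0 -/
noncomputable def f0 (K : Type) [Field K] (N r : ℕ) : Vr N r → MvPolynomial (Vr N r) K :=
  Sum.elim (Fin.cons (X (.inl 0)) (Fin.cons (X (.inl 1)) fun _ => 0)) fun _ => 0

/-- the curve at order 1 -/
noncomputable def f1 {K : Type} [Field K] {N r s : ℕ} (e : Fin r → ℕ) (v : TT N r s → K) :
    Vr N r → MvPolynomial (Vr N r) K :=
  Sum.elim (Fin.cons 0 (Fin.cons 0 fun j => bfm 1 fun l => v (.inl (.inl j, l))))
    fun i => bfm (e i) fun l => v (.inl (.inr i, l))

section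

variable {K : Type} [Field K] {N r s : ℕ}

theorem f0_iv (c : Cv N r) : f0 K N r (iv c) = 0 := by
  rcases c with j | i <;> rfl

theorem f0_0 : f0 K N r (.inl 0) = X (.inl 0) := rfl

theorem f0_1 : f0 K N r (.inl 1) = X (.inl 1) := rfl

theorem f1_iv (e : Fin r → ℕ) (v : TT N r s → K) (c : Cv N r) :
    f1 e v (iv c) = bfm (om e c) (fun l => v (.inl (c, l))) := by
  rcases c with j | i <;> rfl

theorem f1_0 (e : Fin r → ℕ) (v : TT N r s → K) : f1 e v (.inl 0) = 0 := rfl

theorem f1_1 (e : Fin r → ℕ) (v : TT N r s → K) : f1 e v (.inl 1) = 0 := rfl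

theorem ex_bfm (d : ℕ) (w : ℕ → K) :
    Ex (bfm d fun l => (TrivSqZeroExt.inl 0 + TrivSqZeroExt.inr (w l) : DualNumber K) :
      MvPolynomial (Vr N r) (DualNumber K)) 0 (bfm d w) := by
  unfold Ex
  rw [map_zero, zero_add]
  unfold bfm
  rw [map_sum, Finset.mul_sum]
  refine Finset.sum_congr rfl fun l _ => ?_
  beta_reduce
  rw [dual_eq, map_mul, map_mul, map_pow, map_pow, map_C, map_X, map_X, map_zero, zero_add,
    C_mul]
  ring

theorem crv_iv {R : Type} [CommRing R] (e : Fin r → ℕ) (π : TT N r s → R) (c : Cv N r) :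
    crv e π (iv c) = bfm (om e c) (fun l => π (.inl (c, l))) := by
  rcases c with j | i <;> rfl

theorem ex_crv (e : Fin r → ℕ) (x v : TT N r s → K) (hx : ∀ c, x (.inl c) = 0) (u : Vr N r) :
    Ex (crv e (dual x v) u) (f0 K N r u) (f1 e v u) := by
  rcases vcases u with rfl | rfl | ⟨c, rfl⟩
  · have h : crv e (dual x v) (.inl 0) = X (.inl 0) := rfl
    rw [h, f0_0, f1_0]
    exact Ex.X (Sum.inl 0)
  · have h : crv e (dual x v) (.inl 1) = X (.inl 1) := rfl
    rw [h, f0_1, f1_1]
    exact Ex.X (Sum.inl 1)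
  · rw [f0_iv, f1_iv, crv_iv]
    have h : (fun l => dual x v (.inl (c, l))) =
        fun l => (TrivSqZeroExt.inl 0 + TrivSqZeroExt.inr (v (.inl (c, l))) : DualNumber K) := by
      funext l
      unfold dual
      rw [hx]
    rw [h]
    exact ex_bfm _ _

theorem sum_vr {M : Type} [AddCommMonoid M] (T : Vr N r → M) (h0 : T (.inl 0) = 0)
    (h1 : T (.inl 1) = 0) : ∑ u, T u = ∑ c : Cv N r, T (iv c) := by
  rw [Fintype.sum_sum_type, Fintype.sum_sum_type, Fin.sum_univ_succ, Fin.sum_univ_succ, h0]
  have h1' : T (.inl (Fin.succ 0)) = 0 := h1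
  rw [h1', zero_add, zero_add]
  rfl

theorem bi_iv (p q : ℕ) (c : Cv N r) : (bi p q : Vr N r →₀ ℕ) (iv c) = 0 := by
  unfold bi
  rw [Finsupp.add_apply, Finsupp.single_eq_of_ne (iv_ne0 c), Finsupp.single_eq_of_ne (iv_ne1 c),
    add_zero]

theorem bi_0 (p q : ℕ) : (bi p q : Vr N r →₀ ℕ) (.inl 0) = p := by
  unfold bi
  rw [Finsupp.add_apply, Finsupp.single_eq_same, Finsupp.single_eq_of_ne]
  · rfl
  · intro h
    have h2 : (0 : Fin (N + 1 + 1)) = 1 := Sum.inl_injective h
    have h3 := congrArg Fin.val h2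
    simp at h3

theorem bi_1 (p q : ℕ) : (bi p q : Vr N r →₀ ℕ) (.inl 1) = q := by
  unfold bi
  rw [Finsupp.add_apply, Finsupp.single_eq_same, Finsupp.single_eq_of_ne]
  · simp
  · intro h
    have h2 : (1 : Fin (N + 1 + 1)) = 0 := Sum.inl_injective h
    have h3 := congrArg Fin.val h2
    simp at h3

theorem term_eq (m : Vr N r →₀ ℕ) (c : Cv N r) (g : MvPolynomial (Vr N r) K) :
    ((m (iv c) : ℕ) : MvPolynomial (Vr N r) K) * (g * f0 K N r (iv c) ^ (m (iv c) - 1)) *
      ∏ w ∈ Finset.univ.erase (iv c), f0 K N r w ^ m w =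
    open Classical in if m = bi (m (.inl 0)) (m (.inl 1)) + Finsupp.single (iv c) 1 then
      g * (X (.inl 0) ^ m (.inl 0) * X (.inl 1) ^ m (.inl 1)) else 0 := by
  classical
  rw [f0_iv]
  by_cases h : m = bi (m (.inl 0)) (m (.inl 1)) + Finsupp.single (iv c) 1
  · rw [if_pos h]
    have h1 : m (iv c) = 1 := by
      rw [h, Finsupp.add_apply, bi_iv, Finsupp.single_eq_same]
    have h2 : ∀ c', c' ≠ c → m (iv c') = 0 := by
      intro c' hc
      rw [h, Finsupp.add_apply, bi_iv, Finsupp.single_eq_of_ne (fun h3 => hc (iv_inj h3)),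
        add_zero]
    have h3 : ∏ w ∈ Finset.univ.erase (iv c), f0 K N r w ^ m w =
        ∏ w ∈ {(.inl 0 : Vr N r), .inl 1}, f0 K N r w ^ m w := by
      symm
      refine Finset.prod_subset ?_ ?_
      · intro w hw
        rw [Finset.mem_insert, Finset.mem_singleton] at hw
        refine Finset.mem_erase.2 ⟨?_, Finset.mem_univ _⟩
        rcases hw with rfl | rfl
        · exact (iv_ne0 c).symm
        · exact (iv_ne1 c).symm
      · intro w hw hw2
        rw [Finset.mem_insert, Finset.mem_singleton, not_or] at hw2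
        rcases vcases w with h4 | h4 | ⟨c', rfl⟩
        · exact absurd h4 hw2.1
        · exact absurd h4 hw2.2
        · rw [h2 c', pow_zero]
          rintro rfl
          exact (Finset.mem_erase.1 hw).1 rfl
    have h01 : (.inl 0 : Vr N r) ≠ .inl 1 := by
      intro h
      have h2 : (0 : Fin (N + 1 + 1)) = 1 := Sum.inl_injective h
      have h3 := congrArg Fin.val h2
      simp at h3
    rw [h3, Finset.prod_pair h01, h1, f0_0, f0_1]
    simp
  · rw [if_neg h]
    rcases Nat.lt_trichotomy (m (iv c)) 1 with h1 | h1 | h1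
    · have h2 : m (iv c) = 0 := by omega
      rw [h2]
      simp
    · have h2 : ∃ c', c' ≠ c ∧ m (iv c') ≠ 0 := by
        by_contra hcon
        push Not at hcon
        apply h
        ext w
        rcases vcases w with rfl | rfl | ⟨c', rfl⟩
        · rw [Finsupp.add_apply, bi_0, Finsupp.single_eq_of_ne (iv_ne0 c).symm]
          rfl
        · rw [Finsupp.add_apply, bi_1, Finsupp.single_eq_of_ne (iv_ne1 c).symm]
          rfl
        · rw [Finsupp.add_apply, bi_iv]
          by_cases hc : c' = c
          · rw [hc, h1, Finsupp.single_eq_same]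
          · rw [hcon c' hc, Finsupp.single_eq_of_ne (fun h3 => hc (iv_inj h3)), add_zero]
      obtain ⟨c', hc, hm⟩ := h2
      have h3 : ∏ w ∈ Finset.univ.erase (iv c), f0 K N r w ^ m w = 0 := by
        refine Finset.prod_eq_zero (i := iv c') ?_ ?_
        · refine Finset.mem_erase.2 ⟨?_, Finset.mem_univ _⟩
          intro h3
          exact hc (iv_inj h3)
        · rw [f0_iv, zero_pow hm]
      rw [h3, mul_zero]
    · have h2 : (0 : MvPolynomial (Vr N r) K) ^ (m (iv c) - 1) = 0 := zero_pow (by omega)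
      rw [h2]
      simp

/-- the first-order term of a monomial on the curve -/
noncomputable def E1 (e : Fin r → ℕ) (v : TT N r s → K) (m : Vr N r →₀ ℕ) :
    MvPolynomial (Vr N r) K :=
  ∑ c : Cv N r, open Classical in
    if m = bi (m (.inl 0)) (m (.inl 1)) + Finsupp.single (iv c) 1 then
      bfm (om e c) (fun l => v (.inl (c, l))) *
        (X (.inl 0) ^ m (.inl 0) * X (.inl 1) ^ m (.inl 1)) else 0

theorem ex_bind (e : Fin r → ℕ) (x v : TT N r s → K) (hx : ∀ c, x (.inl c) = 0)
    (m : Vr N r →₀ ℕ) (hm : nb m) (b0 b1 : K) :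
    Ex (bind₁ (crv e (dual x v)) (monomial m
      (TrivSqZeroExt.inl b0 + TrivSqZeroExt.inr b1 : DualNumber K))) 0 (C b0 * E1 e v m) := by
  classical
  rw [bind₁_monomial]
  have h1 : ∏ i ∈ m.support, crv e (dual x v) i ^ m i = ∏ i, crv e (dual x v) i ^ m i := by
    refine Finset.prod_subset (Finset.subset_univ _) ?_
    intro i _ hi
    rw [Finsupp.notMem_support_iff.1 hi, pow_zero]
  rw [h1]
  have h2 := Ex.prod (Finset.univ : Finset (Vr N r))
    (F := fun i => crv e (dual x v) i ^ m i) (fun i _ => (ex_crv e x v hx i).pow (m i))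
  have h3 : Ex (C (TrivSqZeroExt.inl b0 + TrivSqZeroExt.inr b1 : DualNumber K) :
      MvPolynomial (Vr N r) (DualNumber K)) (C b0) (C b1) := by
    unfold Ex
    rw [dual_eq, map_C, map_C, C_add, C_mul]
  have h4 := h3.mul h2
  have h5 : ∏ a, f0 K N r a ^ m a = 0 := by
    obtain ⟨c, hc⟩ := hm
    refine Finset.prod_eq_zero (Finset.mem_univ (iv c)) ?_
    rw [f0_iv, zero_pow hc]
  rw [h5, mul_zero, mul_zero, add_zero] at h4
  convert h4 using 2
  unfold E1
  rw [sum_vr]
  · refine Finset.sum_congr rfl fun c _ => ?_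
    rw [term_eq, f1_iv]
  · rw [f1_0]
    simp
  · rw [f1_1]
    simp

/-- dehomogenisation -/
def Hz (D : ℕ) (F : MvPolynomial (Vr N r) K) (f : Polynomial K) : Prop :=
  ∀ p ≤ D, coeff (bi p (D - p)) F = f.coeff p

theorem Hz.sum {D : ℕ} {α : Type} (S : Finset α) {F : α → MvPolynomial (Vr N r) K}
    {f : α → Polynomial K} (h : ∀ i ∈ S, Hz D (F i) (f i)) :
    Hz D (∑ i ∈ S, F i) (∑ i ∈ S, f i) := by
  intro p hp
  rw [coeff_sum, Polynomial.finsetSum_coeff]
  exact Finset.sum_congr rfl fun i hi => h i hi p hp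

theorem hz_term {D i j : ℕ} (h : i + j = D) (b : K) :
    Hz D (C b * (X (.inl 0 : Vr N r) ^ i * X (.inl 1) ^ j)) (Polynomial.C b * Polynomial.X ^ i) := by
  classical
  intro p hp
  have h1 : (C b * (X (.inl 0 : Vr N r) ^ i * X (.inl 1) ^ j) : MvPolynomial (Vr N r) K) =
      monomial (bi i j) b := by
    rw [X_pow_eq_monomial, X_pow_eq_monomial, monomial_mul, C_mul_monomial, mul_one, mul_one]
    rfl
  rw [h1, coeff_monomial, Polynomial.coeff_C_mul, Polynomial.coeff_X_pow]
  by_cases h2 : p = i
  · subst h2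
    rw [if_pos, if_pos rfl, mul_one]
    congr 1
    omega
  · rw [if_neg, if_neg h2, mul_zero]
    intro h3
    have h4 := DFunLike.congr_fun h3 (.inl 0 : Vr N r)
    rw [bi_0, bi_0] at h4
    exact h2 h4.symm

theorem hz_main {D d q t : ℕ} (h : d + q + t = D) (b : K) (w : ℕ → K) :
    Hz D (C b * (bfm d w * (X (.inl 0 : Vr N r) ^ q * X (.inl 1) ^ t)))
      ((∑ l ∈ Finset.range (d + 1), Polynomial.C (w l) * Polynomial.X ^ l) *
        (Polynomial.C b * Polynomial.X ^ q)) := by
  unfold bfm
  rw [Finset.sum_mul, Finset.mul_sum, Finset.sum_mul]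
  refine Hz.sum _ fun l hl => ?_
  rw [Finset.mem_range] at hl
  have h1 := hz_term (K := K) (N := N) (r := r) (D := D) (i := q + l) (j := t + (d - l))
    (by omega) (b * w l)
  intro p hp
  have h2 := h1 p hp
  rw [show (C b * (C (w l) * X (.inl 0 : Vr N r) ^ l * X (.inl 1) ^ (d - l) *
    (X (.inl 0) ^ q * X (.inl 1) ^ t)) : MvPolynomial (Vr N r) K) = C (b * w l) *
    (X (.inl 0 : Vr N r) ^ (q + l) * X (.inl 1) ^ (t + (d - l))) by
      rw [C_mul, pow_add, pow_add]; ring, h2]
  congr 1
  rw [map_mul, pow_add]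
  ring

end

theorem main (hFINW : St_FINW) : St_D1 := by
  classical
  intro K _ N r s e D he x v hx a p hp
  have hg : ∀ y : TT N r s → K, coeff (bi p (D a - p)) (Gen0 e D y a) = 0 := by
    intro y
    unfold Gen0
    rw [coeff_sum]
    refine Finset.sum_eq_zero fun m hm => ?_
    rw [coeff_monomial, if_neg]
    intro h
    rw [Finset.mem_filter] at hm
    obtain ⟨c, hc⟩ := hm.2
    exact hc (by rw [h, bi_iv])
  have h1 : Ex (Gen0 e D (dual x v) a) (Gen0 e D x a) (Gen0 e D v a) := by
    unfold Gen0
    refine Ex.sum _ fun m _ => ?_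
    unfold Ex dual
    beta_reduce
    rw [dual_eq, map_monomial, map_monomial, C_mul_monomial, ← map_add]
  have h2 : Ex (bind₁ (crv e (dual x v)) (Gen0 e D (dual x v) a)) 0
      (∑ m ∈ (wset e (D a)).filter nb, C (x (.inr (a, m))) * E1 e v m) := by
    unfold Gen0
    rw [map_sum]
    have h3 := Ex.sum (K := K) (ι := Vr N r) ((wset e (D a)).filter nb)
      (F := fun m => bind₁ (crv e (dual x v)) (monomial m (dual x v (.inr (a, m)))))
      (F0 := fun m => 0) (F1 := fun m => C (x (.inr (a, m))) * E1 e v m) (by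
        intro m hm
        exact ex_bind e x v hx m (Finset.mem_filter.1 hm).2 _ _)
    rw [Finset.sum_const_zero] at h3
    convert h3 using 2
  have h3 : Ex (UF e D (dual x v) a) _ _ := h1.sub h2
  rw [h3.coeff, coeff_sub, hg, zero_sub]
  have h4 : Hz (D a) (∑ m ∈ (wset e (D a)).filter nb, C (x (.inr (a, m))) * E1 e v m)
      (∑ c, dl e v c * BB e D x a c) := by
    unfold E1
    simp_rw [Finset.mul_sum]
    rw [Finset.sum_comm]
    refine Hz.sum _ fun c _ => ?_
    simp_rw [mul_ite, mul_zero]
    rw [← Finset.sum_filter]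
    unfold BB
    split_ifs with hc
    · rw [Finset.mul_sum]
      have h5 : ∑ m ∈ ((wset e (D a)).filter nb).filter
          (fun m => m = bi (m (.inl 0)) (m (.inl 1)) + Finsupp.single (iv c) 1),
          C (x (.inr (a, m))) * (bfm (om e c) (fun l => v (.inl (c, l))) *
            (X (.inl 0) ^ m (.inl 0) * X (.inl 1) ^ m (.inl 1))) =
          ∑ q ∈ Finset.range (D a - om e c + 1),
          C (x (.inr (a, bi q (D a - om e c - q) + Finsupp.single (iv c) 1))) *
            (bfm (om e c) (fun l => v (.inl (c, l))) *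
            (X (.inl 0 : Vr N r) ^ q * X (.inl 1) ^ (D a - om e c - q))) := by
        have hwt : ∀ q t : ℕ, Finsupp.weight (wt e)
            (bi q t + Finsupp.single (iv c) 1 : Vr N r →₀ ℕ) = q + t + om e c := by
          intro q t
          unfold bi
          rw [map_add, map_add, Finsupp.weight_single, Finsupp.weight_single,
            Finsupp.weight_single]
          rcases c with j | i
          · simp [wt, om, iv]
          · simp [wt, om, iv]
        refine Finset.sum_nbij' (fun m => m (.inl 0))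
          (fun q => bi q (D a - om e c - q) + Finsupp.single (iv c) 1) ?_ ?_ ?_ ?_ ?_
        · intro m hm
          rw [Finset.mem_filter, Finset.mem_filter, hFINW _ _ e he] at hm
          have h6 := hm.1.1
          rw [hm.2, hwt] at h6
          rw [Finset.mem_range]
          omega
        · intro q hq
          rw [Finset.mem_range] at hq
          rw [Finset.mem_filter, Finset.mem_filter, hFINW _ _ e he, hwt]
          refine ⟨⟨by omega, c, ?_⟩, ?_⟩
          · rw [Finsupp.add_apply, Finsupp.single_eq_same]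
            omega
          · rw [Finsupp.add_apply, Finsupp.add_apply, bi_0, bi_1,
              Finsupp.single_eq_of_ne (iv_ne0 c).symm, Finsupp.single_eq_of_ne (iv_ne1 c).symm]
            rfl
        · intro m hm
          rw [Finset.mem_filter, Finset.mem_filter, hFINW _ _ e he] at hm
          have h6 := hm.1.1
          rw [hm.2, hwt] at h6
          have h7 : D a - om e c - m (.inl 0) = m (.inl 1) := by omega
          beta_reduce
          rw [h7]
          exact hm.2.symm
        · intro q hq
          rw [Finsupp.add_apply, bi_0, Finsupp.single_eq_of_ne (iv_ne0 c).symm]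
          rfl
        · intro m hm
          rw [Finset.mem_filter, Finset.mem_filter, hFINW _ _ e he] at hm
          have h6 := hm.1.1
          rw [hm.2, hwt] at h6
          have h7 : D a - om e c - m (.inl 0) = m (.inl 1) := by omega
          beta_reduce
          rw [h7, ← hm.2]
      have h8 : Hz (D a) (∑ q ∈ Finset.range (D a - om e c + 1),
          C (x (.inr (a, bi q (D a - om e c - q) + Finsupp.single (iv c) 1))) *
            (bfm (om e c) (fun l => v (.inl (c, l))) *
            (X (.inl 0) ^ q * X (.inl 1) ^ (D a - om e c - q))) : MvPolynomial (Vr N r) K)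
          (∑ q ∈ Finset.range (D a - om e c + 1), dl e v c *
            (Polynomial.C (x (.inr (a, bi q (D a - om e c - q) + Finsupp.single (iv c) 1))) *
              Polynomial.X ^ q)) := by
        refine Hz.sum _ fun q hq => ?_
        rw [Finset.mem_range] at hq
        exact hz_main (by omega) _ _
      rw [← h5] at h8
      convert h8 using 2
    · rw [mul_zero]
      intro p hp
      rw [Finset.sum_eq_zero]
      · simp
      · intro m hm
        exfalso
        rw [Finset.mem_filter, Finset.mem_filter, hFINW _ _ e he] at hm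
        have h6 := hm.1.1
        apply hc
        rw [← h6, hm.2]
        unfold bi
        rw [map_add, Finsupp.weight_single]
        rcases c with j | i
        · simp [wt, om, iv]
        · simp [wt, om, iv]
  rw [h4 p hp]

end Pool.Agent.Helper16.WL.D1
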